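import Pool.Agent.H20.RT.Stmts

/-! Row INN of board rt (helper66). -/

set_option autoImplicit false

namespace Pool.RT

theorem INN_thm (h1 : RV1Stmt) (h2 : WRBStmt) : INNStmt := by
  intro h V W hV hW
  obtain ⟨r1, r2, -, r4, r5⟩ := h1
  have hR : revk h W < 10 ^ h := r1 h W
  constructor
  · unfold inner
    have e : (10 : ℕ) ^ (2 * h + 2) = 10 ^ h * 10 ^ (h + 2) := by
      rw [← pow_add]; congr 1; omega
    have h3 : (revk h W + 1) * 10 ^ (h + 2) ≤ 10 ^ h * 10 ^ (h + 2) :=
      Nat.mul_le_mul_right _ hR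
    have h4 : (10 : ℕ) ^ h ≤ 10 ^ (h + 2) := Nat.pow_le_pow_right (by norm_num) (by omega)
    rw [e]
    nlinarith
  · intro d hd1 hd9
    have hP : 10 * revk h W < 10 ^ (h + 1) := by rw [pow_succ]; omega
    obtain ⟨-, -, h5⟩ := h2 h (10 * revk h W) V hP hV (Dvd.intro _ rfl)
    have h6 := h5 0 0 (by norm_num) d hd1 hd9
    have e1 : 10 * revk h W * 10 ^ (h + 1 + 0) + 0 * 10 ^ (h + 1) + V = inner h V W := by
      unfold inner; ring
    have e2 : 2 * (h + 1) + 0 = 2 * h + 2 := by ring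
    have e3 : cnt d (S 0 0) = 0 := by simp [S, revk, cnt]
    have e4 : revk (h + 1) (10 * revk h W) = W := by rw [r5, r2 h W hW]
    have e5 : (10 * revk h W + revk (h + 1) V) / 10 = revk h V + revk h W := by
      rw [r4 h V hV]; omega
    rw [e1, e2, e3, e4, e5, zero_add] at h6
    exact h6

end Pool.RT
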